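import Pool.Agent.Q155.PC.Gen

/-!
# The constant when every number has one prime factor
-/

set_option autoImplicit false
set_option linter.unusedSectionVars false
set_option linter.unusedVariables false

namespace Q155.PC

/-- the two equations have only the solution zero -/
def QQ (v L β a b t : ZMod 3) : Prop :=
  ∀ x y : ZMod 3, v * L * (x - y) = a * y → v * β * x + t * b * y = 0 → x = 0 ∧ y = 0

instance (v L β a b t : ZMod 3) : Decidable (QQ v L β a b t) := by
  unfold QQ
  infer_instance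

theorem fin3 : ∀ v L β a b : ZMod 3, v ≠ 0 → L ≠ 0 → β ≠ 0 → QQ v L β a b 1 → QQ v L β (-a) b 1 →
    QQ v L β a b 2 → QQ v L β (-a) b 2 → a = 0 ∧ b = 0 := by
  decide

open scoped Classical

open Q283.TQ
open Pool.Agent.Y703.CT (Cls NoSplit)
open Q283.MC (tw)

theorem nse_prime {D : ℕ} (hD : Bs D) (h1 : D.primeFactors.card = 1) (a b : ℕ → ZMod 3) :
    NSe D a b ↔ ∀ p ∈ D.primeFactors, b p ≠ 0 := by
  obtain ⟨q, hq⟩ := Finset.card_eq_one.1 h1
  obtain ⟨⟨h0, h3, hcf⟩, q', hq', hq2, hqD, hall⟩ := hD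
  have hqq : q' = q := by
    have : q' ∈ D.primeFactors := Nat.mem_primeFactors.2 ⟨hq', hqD, h0⟩
    rw [hq, Finset.mem_singleton] at this
    exact this
  subst hqq
  have hfac : (D.factorization q' : ZMod 3) ≠ 0 := by
    have h4 : D.factorization q' ≤ 2 := by
      by_contra hcon
      exact hcf q' hq' ((hq'.pow_dvd_iff_le_factorization h0).2 (by omega))
    have h5 : 1 ≤ D.factorization q' := (hq'.dvd_iff_one_le_factorization h0).1 hqD
    have h6 : D.factorization q' = 1 ∨ D.factorization q' = 2 := by omega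
    rcases h6 with h6 | h6 <;> rw [h6] <;> decide
  unfold NSe
  rw [hq]
  simp only [Finset.mem_singleton, forall_eq, Finset.sum_singleton, sub_self, mul_zero]
  constructor
  · intro h hb
    have := h (fun _ => 1) (fun h5 => by omega) (by rw [hb]; ring)
    exact one_ne_zero this
  · intro hb g _ h5
    rcases mul_eq_zero.1 h5 with h6 | h6
    · rcases mul_eq_zero.1 h6 with h7 | h7
      · exact absurd h7 hfac
      · exact absurd h7 hb
    · exact h6

theorem nosplit_prime {D : ℕ} (h1 : D.primeFactors.card = 1) : NoSplit D := by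
  intro d hd hc _
  obtain ⟨q, hq⟩ := Finset.card_eq_one.1 h1
  have hqm : q ∈ D.primeFactors := by rw [hq]; exact Finset.mem_singleton_self q
  have hqp := Nat.prime_of_mem_primeFactors hqm
  have hD0 : D ≠ 0 := by
    rintro rfl
    simp at h1
  have hdv : q ∣ ∏ c, d c := by rw [hd]; exact Nat.dvd_of_mem_primeFactors hqm
  obtain ⟨c, -, hqc⟩ := (hqp.prime.dvd_finsetProd_iff _).1 hdv
  refine ⟨c, fun c' hcc => ?_⟩
  by_contra hne
  obtain ⟨p, hp, hpd⟩ := Nat.exists_prime_and_dvd hne
  have h2 : p ∈ D.primeFactors := by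
    refine Nat.mem_primeFactors.2 ⟨hp, ?_, hD0⟩
    rw [← hd]
    exact hpd.trans (Finset.dvd_prod_of_mem _ (Finset.mem_univ c'))
  rw [hq, Finset.mem_singleton] at h2
  rw [h2] at hpd
  have h3 := Nat.dvd_gcd hpd hqc
  rw [hc c' c hcc] at h3
  exact hqp.one_lt.ne' (Nat.dvd_one.1 h3)

/-- the system with two primes -/
theorem nse_two {D q l t : ℕ} (hD0 : D ≠ 0) (hq : D.primeFactors = {q}) (hq2 : q % 3 = 2)
    (hl : l.Prime) (hl1 : l % 3 = 1) (ht : t ≠ 0) (a b : ℕ → ZMod 3) :
    NSe (D * l ^ t) a b ↔ ∀ x y : ZMod 3,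
      (D.factorization q : ZMod 3) * lg l q * (x - y) = a l * y →
      (D.factorization q : ZMod 3) * b q * x + (t : ZMod 3) * b l * y = 0 → x = 0 ∧ y = 0 := by
  have hqm : q ∈ D.primeFactors := by rw [hq]; exact Finset.mem_singleton_self q
  have hqp := Nat.prime_of_mem_primeFactors hqm
  have hlq : l ≠ q := by rintro rfl; omega
  have hl0 : l ^ t ≠ 0 := pow_ne_zero _ hl.ne_zero
  have hpf : (D * l ^ t).primeFactors = {q, l} := by
    rw [Nat.primeFactors_mul hD0 hl0, Nat.primeFactors_pow _ ht, hl.primeFactors, hq]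
    rfl
  have hlD : D.factorization l = 0 := by
    have h5 : l ∉ D.primeFactors := by
      rw [hq, Finset.mem_singleton]
      exact hlq
    rwa [← Nat.support_factorization, Finsupp.notMem_support_iff] at h5
  have f1 : (D * l ^ t).factorization q = D.factorization q := by
    rw [Nat.factorization_mul hD0 hl0, Finsupp.add_apply, Nat.factorization_pow,
      Finsupp.smul_apply, hl.factorization, Finsupp.single_apply, if_neg hlq]
    simp
  have f2 : (D * l ^ t).factorization l = t := by
    rw [Nat.factorization_mul hD0 hl0, Finsupp.add_apply, Nat.factorization_pow,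
      Finsupp.smul_apply, hl.factorization, Finsupp.single_apply, if_pos rfl, hlD]
    simp
  unfold NSe
  rw [hpf]
  have hql : q ∉ ({l} : Finset ℕ) := by
    rw [Finset.mem_singleton]
    exact hlq.symm
  simp only [Finset.mem_insert, Finset.mem_singleton, forall_eq_or_imp, forall_eq,
    Finset.sum_insert hql, Finset.sum_singleton, f1, f2, sub_self, mul_zero, zero_add, add_zero]
  constructor
  · intro h x y h1 h2
    have := h (fun p => if p = q then x else y) ?_ ?_
    · rw [if_pos rfl, if_neg hlq] at this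
      exact this
    · refine ⟨fun h3 => by omega, fun _ => ?_⟩
      rw [if_pos rfl, if_neg hlq]
      exact h1
    · rw [if_pos rfl, if_neg hlq]
      exact h2
  · intro h g h1 h2
    exact h (g q) (g l) (h1.2 hl1) h2

section
variable {ι : Type} [Fintype ι] {D : ι → ℕ}

theorem char_pp [Nonempty ι] (hD : ∀ i, Cls (D i)) (h1 : ∀ i, (D i).primeFactors.card = 1)
    {k : ℕ} {ls : Fin k → ℕ} (h : Lv D ls) (a b : ℕ → ZMod 3) :
    (∀ x : ι × (Fin k → ZMod 3), NSe (TF D ls x) a b ∧ NSe (TF D ls x) (fun p => - a p) b) ↔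
      (∀ j, a (ls j) = 0 ∧ b (ls j) = 0) ∧ ∀ i, ∀ p ∈ (D i).primeFactors, b p ≠ 0 := by
  have hB : ∀ i, Bs (D i) := fun i => ⟨(hD i).1, (hD i).2.2.2⟩
  have hq : ∀ i, ∃ q, (D i).primeFactors = {q} ∧ q % 3 = 2 := by
    intro i
    obtain ⟨q, hq⟩ := Finset.card_eq_one.1 (h1 i)
    obtain ⟨⟨h0, -⟩, q', hq', hq2, hqD, -⟩ := hB i
    have h3 : q' ∈ (D i).primeFactors := Nat.mem_primeFactors.2 ⟨hq', hqD, h0⟩
    rw [hq, Finset.mem_singleton] at h3
    exact ⟨q, hq, by rw [← h3]; exact hq2⟩
  have hval : ∀ (i : ι) (j : Fin k) (x : ZMod 3), TF D ls (i, Pi.single j x) =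
      D i * ls j ^ x.val := by
    intro i j x
    unfold TF tw
    show D i * ∏ c, ls c ^ ((Pi.single j x : Fin k → ZMod 3) c).val = _
    rw [Finset.prod_eq_single j]
    · rw [Pi.single_eq_same]
    · intro c _ hc
      rw [Pi.single_eq_of_ne hc, ZMod.val_zero, pow_zero]
    · intro hj
      exact absurd (Finset.mem_univ j) hj
  constructor
  · intro hx
    have hbq : ∀ i, ∀ p ∈ (D i).primeFactors, b p ≠ 0 := by
      intro i
      have e0 := hx (i, fun _ => 0)
      have h0 : TF D ls (i, fun _ => 0) = D i := by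
        unfold TF tw
        simp only [ZMod.val_zero, pow_zero, Finset.prod_const_one, mul_one]
      rw [h0] at e0
      exact (nse_prime (hB i) (h1 i) a b).1 e0.1
    refine ⟨fun j => ?_, hbq⟩
    · obtain ⟨i⟩ := ‹Nonempty ι›
      obtain ⟨q, hq1, hq2⟩ := hq i
      have hl := (h.1 j).1
      have hl1 : ls j % 3 = 1 := by
        have := (h.1 j).2.1
        omega
      have e1 := hx (i, Pi.single j 1)
      have e2 := hx (i, Pi.single j 2)
      rw [hval] at e1 e2
      have v1 : (1 : ZMod 3).val = 1 := rfl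
      have v2 : (2 : ZMod 3).val = 2 := rfl
      rw [v1, nse_two (hB i).ne_zero hq1 hq2 hl hl1 one_ne_zero,
        nse_two (hB i).ne_zero hq1 hq2 hl hl1 one_ne_zero] at e1
      rw [v2, nse_two (hB i).ne_zero hq1 hq2 hl hl1 two_ne_zero,
        nse_two (hB i).ne_zero hq1 hq2 hl hl1 two_ne_zero] at e2
      have hqm : q ∈ (D i).primeFactors := by rw [hq1]; exact Finset.mem_singleton_self q
      have hv : ((D i).factorization q : ZMod 3) ≠ 0 := (hB i).mu_ne q hqm
      have hL : lg (ls j) q ≠ 0 := by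
        intro hL
        have hC := cls_TF hD h (i, Pi.single j 1)
        have hN := ns_TF hD h (i, Pi.single j 1)
        rw [hval, v1] at hC hN
        have h5 := nse_zero (D := D i * ls j ^ 1) ⟨hC.1, hC.2.2.2⟩ hN (a := fun _ => 0)
          (b := fun p => if p % 3 = 2 then 1 else 0) (fun _ _ _ => rfl)
          (fun p _ hp => by simp [hp]) (fun p _ hp => by simp [hp])
        rw [nse_two (hB i).ne_zero hq1 hq2 hl hl1 one_ne_zero] at h5
        have h6 := h5 0 1 (by rw [hL]; ring) (by simp [hl1])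
        exact one_ne_zero h6.2
      have c1 : ((1 : ℕ) : ZMod 3) = 1 := by norm_num
      have c2 : ((2 : ℕ) : ZMod 3) = 2 := by norm_num
      rw [c1] at e1
      rw [c2] at e2
      exact fin3 _ _ (b q) _ _ hv hL (hbq i q hqm) e1.1 e1.2 e2.1 e2.2
  · rintro ⟨h2, h3⟩ x
    have hC := cls_TF hD h x
    have hN := ns_TF hD h x
    have hpf : ∀ p ∈ (TF D ls x).primeFactors, p ∈ (D x.1).primeFactors ∨ ∃ j, p = ls j := by
      intro p hp
      rcases (cls_tw (D x.1) ls (hD _) (fun j => (h.1 j).1) (fun j => (h.1 j).2.1)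
        (fun j => (h.1 j).2.2 _) h.2.1 x.2).2 p (Nat.prime_of_mem_primeFactors hp)
        (Nat.dvd_of_mem_primeFactors hp) with h4 | h4
      · exact Or.inl (Nat.mem_primeFactors.2 ⟨Nat.prime_of_mem_primeFactors hp, h4,
          (hB _).ne_zero⟩)
      · exact Or.inr h4
    have hp1 : ∀ p ∈ (TF D ls x).primeFactors, p % 3 = 1 → ∃ j, p = ls j := by
      intro p hp hp1
      rcases hpf p hp with h4 | h4
      · obtain ⟨q, hq1, hq2⟩ := hq x.1
        rw [hq1, Finset.mem_singleton] at h4
        omega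
      · exact h4
    have hp2 : ∀ p ∈ (TF D ls x).primeFactors, p % 3 = 2 → b p ≠ 0 := by
      intro p hp hp2
      rcases hpf p hp with h4 | ⟨j, h4⟩
      · exact h3 _ p h4
      · have := (h.1 j).2.1
        omega
    refine ⟨nse_zero ⟨hC.1, hC.2.2.2⟩ hN (fun p hp hp3 => ?_) (fun p hp hp3 => ?_) hp2,
      nse_zero ⟨hC.1, hC.2.2.2⟩ hN (fun p hp hp3 => ?_) (fun p hp hp3 => ?_) hp2⟩ <;>
      obtain ⟨j, rfl⟩ := hp1 p hp hp3
    · exact (h2 j).1
    · exact (h2 j).2
    · show - a (ls j) = 0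
      rw [(h2 j).1, neg_zero]
    · exact (h2 j).2

/-- **The constant.** -/
theorem c_pp [Nonempty ι] (hD : ∀ i, Cls (D i)) (h1 : ∀ i, (D i).primeFactors.card = 1)
    {k : ℕ} {ls : Fin k → ℕ} (h : Lv D ls) :
    cI (TF D ls) = (2 / 3) ^ (RI D).card / 9 ^ k := by
  have hB : ∀ i, Bs (D i) := fun i => ⟨(hD i).1, (hD i).2.2.2⟩
  have hls1 : ∀ j, ls j % 3 = 1 := fun j => by
    have := (h.1 j).2.1
    omega
  have hRI : RI (TF D ls) = RI D ∪ Finset.univ.image ls := by
    ext p
    unfold RI
    simp only [Finset.mem_biUnion, Finset.mem_univ, true_and, Finset.mem_union, Finset.mem_image]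
    constructor
    · rintro ⟨x, hx⟩
      rcases (cls_tw (D x.1) ls (hD _) (fun j => (h.1 j).1) (fun j => (h.1 j).2.1)
        (fun j => (h.1 j).2.2 _) h.2.1 x.2).2 p (Nat.prime_of_mem_primeFactors hx)
        (Nat.dvd_of_mem_primeFactors hx) with h4 | ⟨j, h4⟩
      · exact Or.inl ⟨x.1, Nat.mem_primeFactors.2 ⟨Nat.prime_of_mem_primeFactors hx, h4,
          (hB _).ne_zero⟩⟩
      · exact Or.inr ⟨j, h4.symm⟩
    · rintro (⟨i, hi⟩ | ⟨j, rfl⟩)
      · refine ⟨(i, fun _ => 0), ?_⟩
        have h0 : TF D ls (i, fun _ => 0) = D i := by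
          unfold TF tw
          simp only [ZMod.val_zero, pow_zero, Finset.prod_const_one, mul_one]
        rw [h0]
        exact hi
      · obtain ⟨i⟩ := ‹Nonempty ι›
        refine ⟨(i, fun _ => 1), Nat.mem_primeFactors.2 ⟨(h.1 j).1, ?_,
          (cls_TF hD h _).1.1⟩⟩
        unfold TF tw
        refine Dvd.dvd.mul_left ?_ _
        have h2 : (1 : ZMod 3).val = 1 := rfl
        simp only [h2, pow_one]
        exact Finset.dvd_prod_of_mem _ (Finset.mem_univ j)
  have hRD : ∀ p ∈ RI D, p % 3 = 2 := by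
    intro p hp
    obtain ⟨i, -, hi⟩ := Finset.mem_biUnion.1 hp
    obtain ⟨q, hq⟩ := Finset.card_eq_one.1 (h1 i)
    obtain ⟨⟨h0, -⟩, q', hq', hq2, hqD, -⟩ := hB i
    have h3 : q' ∈ (D i).primeFactors := Nat.mem_primeFactors.2 ⟨hq', hqD, h0⟩
    rw [hq, Finset.mem_singleton] at h3 hi
    omega
  have hRI1 : RI1 (TF D ls) = Finset.univ.image ls := by
    unfold RI1
    rw [hRI]
    ext p
    rw [Finset.mem_filter, Finset.mem_union]
    constructor
    · rintro ⟨h2 | h2, h3⟩
      · have := hRD p h2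
        omega
      · exact h2
    · intro h2
      refine ⟨Or.inr h2, ?_⟩
      obtain ⟨j, -, rfl⟩ := Finset.mem_image.1 h2
      exact hls1 j
  have hdisj : Disjoint (RI D) (Finset.univ.image ls) := by
    rw [Finset.disjoint_left]
    intro p hp h2
    obtain ⟨j, -, rfl⟩ := Finset.mem_image.1 h2
    have := hRD _ hp
    have := hls1 j
    omega
  have hcard : (Finset.univ.image ls).card = k := by
    rw [Finset.card_image_of_injective _ h.2.1, Finset.card_univ, Fintype.card_fin]
  unfold cI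
  rw [hRI1, hRI]
  have hΦ : (fun a b : ℕ → ZMod 3 => ∀ x : ι × (Fin k → ZMod 3),
      NSe (TF D ls x) a b ∧ NSe (TF D ls x) (fun p => - a p) b) =
      fun a b => (∀ j, a (ls j) = 0 ∧ b (ls j) = 0) ∧
        ∀ i, ∀ p ∈ (D i).primeFactors, b p ≠ 0 := by
    funext a b
    rw [eq_iff_iff]
    exact char_pp hD h1 h a b
  rw [hΦ]
  unfold cg
  set I := Finset.univ.image ls with hI
  have hIm : ∀ j, ls j ∈ I := fun j => Finset.mem_image_of_mem _ (Finset.mem_univ j)
  have hmem : ∀ p : RI D, (p : ℕ) ∈ RI D ∪ I := fun p => Finset.mem_union_left _ p.2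
  have e1 : {y : (I → ZMod 3) × ((RI D ∪ I : Finset ℕ) → ZMod 3) //
      (fun a b : ℕ → ZMod 3 => (∀ j, a (ls j) = 0 ∧ b (ls j) = 0) ∧
        ∀ i, ∀ p ∈ (D i).primeFactors, b p ≠ 0) (exN I y.1) (exN (RI D ∪ I) y.2)} ≃
      (RI D → {x : ZMod 3 // x ≠ 0}) :=
    { toFun := fun y p => ⟨y.1.2 ⟨p, hmem p⟩, by
        obtain ⟨i, -, hi⟩ := Finset.mem_biUnion.1 p.2
        have h3 := y.2.2 i p hi
        unfold exN at h3
        rwa [dif_pos (hmem p)] at h3⟩
      invFun := fun u => ⟨(fun _ => 0, fun r => if h : (r : ℕ) ∈ RI D then (u ⟨r, h⟩).1 else 0), by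
        refine ⟨fun j => ⟨exN_zero _ _, ?_⟩, fun i p hp => ?_⟩
        · unfold exN
          rw [dif_pos (Finset.mem_union_right _ (hIm j))]
          exact dif_neg fun h4 => Finset.disjoint_left.1 hdisj h4 (hIm j)
        · have hpm : p ∈ RI D := Finset.mem_biUnion.2 ⟨i, Finset.mem_univ _, hp⟩
          unfold exN
          rw [dif_pos (Finset.mem_union_left _ hpm)]
          show (if h : p ∈ RI D then (u ⟨p, h⟩).1 else 0) ≠ 0
          rw [dif_pos hpm]
          exact (u _).2⟩
      left_inv := by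
        rintro ⟨⟨a, b⟩, hab⟩
        apply Subtype.ext
        refine Prod.ext ?_ ?_
        · funext p
          obtain ⟨j, -, hj⟩ := Finset.mem_image.1 p.2
          have h3 := (hab.1 j).1
          unfold exN at h3
          rw [dif_pos (hIm j)] at h3
          have h4 : p = ⟨ls j, hIm j⟩ := Subtype.ext hj.symm
          show (0 : ZMod 3) = a p
          rw [h4]
          exact h3.symm
        · funext r
          show (if h : (r : ℕ) ∈ RI D then b ⟨r, _⟩ else 0) = b r
          by_cases hr : (r : ℕ) ∈ RI D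
          · rw [dif_pos hr]
          · rw [dif_neg hr]
            rcases Finset.mem_union.1 r.2 with h4 | h4
            · exact absurd h4 hr
            · obtain ⟨j, -, hj⟩ := Finset.mem_image.1 h4
              have h3 := (hab.1 j).2
              unfold exN at h3
              rw [dif_pos (Finset.mem_union_right _ (hIm j))] at h3
              have h5 : r = ⟨ls j, Finset.mem_union_right _ (hIm j)⟩ := Subtype.ext hj.symm
              rw [h5]
              exact h3.symm
      right_inv := by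
        intro u
        funext p
        apply Subtype.ext
        show (if h : (p : ℕ) ∈ RI D then (u ⟨p, h⟩).1 else 0) = (u p).1
        rw [dif_pos p.2] }
  rw [Nat.card_congr e1, Nat.card_fun]
  have h4 : Nat.card {x : ZMod 3 // x ≠ 0} = 2 := by
    rw [Nat.card_eq_fintype_card]
    decide
  rw [h4, Nat.card_eq_fintype_card, Fintype.card_coe, Finset.card_union_of_disjoint hdisj, hcard,
    div_pow, pow_add, pow_add]
  push_cast
  have h9 : (9 : ℝ) ^ k = 3 ^ k * 3 ^ k := by
    rw [← mul_pow]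
    norm_num
  rw [h9]
  field_simp

end

end Q155.PC
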