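import Pool.Agent.Q155.PC.Main

/-!
# Families with arbitrary index types, and trees of primes
-/

set_option autoImplicit false
set_option linter.unusedSectionVars false
set_option linter.unusedVariables false

open scoped Classical

namespace Q155.PC

open Filter Topology
open Pool.Agent.Y703.CT (Cls NoSplit)
open Q283.TQ
open Q283.MC (tw)

section
variable {ι : Type} [Fintype ι] (D : ι → ℕ)

/-- all prime factors -/
def RI : Finset ℕ := Finset.univ.biUnion fun i => (D i).primeFactors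

/-- the prime factors `= 1` modulo `3` -/
def RI1 : Finset ℕ := (RI D).filter fun p => p % 3 = 1

/-- the constant -/
noncomputable def cI : ℝ :=
  cg (RI1 D) (RI D) fun a b => ∀ i, NSe (D i) a b ∧ NSe (D i) (fun p => - a p) b

/-- the allowed primes -/
def ADI (l : ℕ) : Prop := l % 9 = 1 ∧ ∀ i, ¬ l ∣ D i

/-- the good primes -/
def GDI (l : ℕ) : Prop := ADI D l ∧ ∀ i, Con (D i * l) ∧ Con (D i * l ^ 2)

variable {D}

theorem densI [Nonempty ι] (hD : ∀ i, Cls (D i)) (hS : ∀ i, NoSplit (D i)) :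
    Tendsto (fun X : ℕ => (CN (ADI D) X : ℝ) / (CN (fun _ => True) X : ℝ)) atTop (𝓝 (1 / 3)) ∧
    Tendsto (fun X : ℕ => (CN (GDI D) X : ℝ) / (CN (ADI D) X : ℝ)) atTop (𝓝 (cI D)) ∧
    0 < cI D := by
  let E := Fintype.equivFin ι
  let D0 : Fin (Fintype.card ι) → ℕ := fun i => D (E.symm i)
  have hn : 0 < Fintype.card ι := Fintype.card_pos
  have hB : ∀ i, Bs (D0 i) := fun i => ⟨(hD _).1, (hD _).2.2.2⟩
  obtain ⟨g1, g2⟩ := dens hn hB (fun i => (hD _).2.1) (fun i => (hD _).2.2.1)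
  have g3 := cD_pos hB (fun i => hS _)
  have all : ∀ P : ℕ → Prop, (∀ i, P (D0 i)) ↔ ∀ i, P (D i) := by
    intro P
    constructor
    · intro h i
      have := h (E i)
      simp only [D0, Equiv.symm_apply_apply] at this
      exact this
    · intro h i
      exact h _
  have ha : AD D0 = ADI D := by
    funext l
    unfold AD ADI
    rw [all fun m => ¬ l ∣ m]
  have hg : GD D0 = GDI D := by
    funext l
    unfold GD GDI ADI
    rw [all fun m => ¬ l ∣ m, all fun m => Con (m * l) ∧ Con (m * l ^ 2)]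
  have hR : RR D0 = RI D := by
    ext p
    unfold RR RI
    simp only [Finset.mem_biUnion, Finset.mem_univ, true_and]
    constructor
    · rintro ⟨i, hi⟩
      exact ⟨_, hi⟩
    · rintro ⟨i, hi⟩
      refine ⟨E i, ?_⟩
      simp only [D0, Equiv.symm_apply_apply]
      exact hi
  have hR1 : R1 D0 = RI1 D := by
    unfold R1 RI1
    rw [hR]
  have hc : cD D0 = cI D := by
    unfold cD cI
    rw [hR, hR1]
    congr 1
    funext a b
    rw [eq_iff_iff]
    exact all fun m => NSe m a b ∧ NSe m (fun p => - a p) b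
  rw [ha] at g1 g2
  rw [hg, hc] at g2
  rw [hc] at g3
  exact ⟨g1, g2, g3⟩

end

/-- the twists by the primes `ls` -/
theorem cls_tw {k : ℕ} : ∀ (D : ℕ) (ls : Fin k → ℕ), Cls D → (∀ j, (ls j).Prime) →
    (∀ j, ls j % 9 = 1) → (∀ j, ¬ ls j ∣ D) → Function.Injective ls →
    ∀ e, Cls (tw D ls e) ∧ ∀ p : ℕ, p.Prime → p ∣ tw D ls e → p ∣ D ∨ ∃ j, p = ls j := by
  induction k with
  | zero =>
    intro D ls hD hl h9 hnd hinj e
    unfold tw
    rw [Fin.prod_univ_zero, mul_one]
    exact ⟨hD, fun p _ h => Or.inl h⟩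
  | succ k ih =>
    intro D ls hD hl h9 hnd hinj e
    obtain ⟨h1, h2⟩ := ih D (fun j => ls j.castSucc) hD (fun j => hl _) (fun j => h9 _)
      (fun j => hnd _) (fun i j h => Fin.castSucc_injective k (hinj h)) fun j => e j.castSucc
    have htw : tw D ls e = tw D (fun j => ls j.castSucc) (fun j => e j.castSucc) *
        ls (Fin.last k) ^ (e (Fin.last k)).val := by
      unfold tw
      rw [Fin.prod_univ_castSucc, mul_assoc]
    have hnm : ¬ ls (Fin.last k) ∣ tw D (fun j => ls j.castSucc) fun j => e j.castSucc := by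
      intro h
      rcases h2 _ (hl _) h with h3 | ⟨j, h3⟩
      · exact hnd _ h3
      · have := hinj h3
        exact absurd this (Fin.castSucc_lt_last j).ne'
    have hB : Bs (tw D (fun j => ls j.castSucc) fun j => e j.castSucc) := ⟨h1.1, h1.2.2.2⟩
    have hdv : ∀ p : ℕ, p.Prime → p ∣ tw D ls e → p ∣ D ∨ ∃ j, p = ls j := by
      intro p hp h
      rw [htw] at h
      rcases (hp.dvd_mul).1 h with h3 | h3
      · rcases h2 p hp h3 with h4 | ⟨j, h4⟩
        · exact Or.inl h4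
        · exact Or.inr ⟨_, h4⟩
      · exact Or.inr ⟨_, (Nat.prime_dvd_prime_iff_eq hp (hl _)).1 (hp.dvd_of_dvd_pow h3)⟩
    refine ⟨?_, hdv⟩
    rw [htw]
    have he : e (Fin.last k) = 0 ∨ e (Fin.last k) = 1 ∨ e (Fin.last k) = 2 := by
      generalize e (Fin.last k) = x
      revert x
      decide
    rcases he with h | h | h <;> rw [h]
    · have : (0 : ZMod 3).val = 0 := rfl
      rw [this, pow_zero, mul_one]
      exact h1
    · have : (1 : ZMod 3).val = 1 := rfl
      rw [this, pow_one]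
      exact first hB h1.2.1 h1.2.2.1 (hl _) (h9 _) hnm
    · have : (2 : ZMod 3).val = 2 := rfl
      rw [this]
      exact (second hB h1.2.1 h1.2.2.1 (hl _) (h9 _) hnm).1

section
variable {ι : Type} [Fintype ι] (D : ι → ℕ)

/-- the family of the twists -/
def TF {k : ℕ} (ls : Fin k → ℕ) (x : ι × (Fin k → ZMod 3)) : ℕ := tw (D x.1) ls x.2

/-- the tuples of the tree -/
def Lv {k : ℕ} (ls : Fin k → ℕ) : Prop :=
  (∀ j, (ls j).Prime ∧ ls j % 9 = 1 ∧ ∀ i, ¬ ls j ∣ D i) ∧ Function.Injective ls ∧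
    ∀ i e, Con (tw (D i) ls e)

/-- the allowed primes -/
def NX {k : ℕ} (ls : Fin k → ℕ) (l : ℕ) : Prop := l % 9 = 1 ∧ (∀ i, ¬ l ∣ D i) ∧ ∀ j, l ≠ ls j

variable {D}

theorem cls_TF (hD : ∀ i, Cls (D i)) {k : ℕ} {ls : Fin k → ℕ} (h : Lv D ls)
    (x : ι × (Fin k → ZMod 3)) : Cls (TF D ls x) :=
  (cls_tw (D x.1) ls (hD _) (fun j => (h.1 j).1) (fun j => (h.1 j).2.1)
    (fun j => (h.1 j).2.2 _) h.2.1 x.2).1

theorem ns_TF (hD : ∀ i, Cls (D i)) {k : ℕ} {ls : Fin k → ℕ} (h : Lv D ls)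
    (x : ι × (Fin k → ZMod 3)) : NoSplit (TF D ls x) :=
  (con_iff (cls_TF hD h x)).1 (h.2.2 x.1 x.2)

theorem adi_iff [Nonempty ι] (hD : ∀ i, Cls (D i)) {k : ℕ} {ls : Fin k → ℕ} (h : Lv D ls) {l : ℕ}
    (hl : l.Prime) : ADI (TF D ls) l ↔ NX D ls l := by
  unfold ADI NX
  refine and_congr_right fun h9 => ?_
  constructor
  · intro h1
    refine ⟨fun i hi => h1 (i, fun _ => 0) ?_, fun j hj => ?_⟩
    · unfold TF tw
      exact hi.mul_right _
    · refine h1 (Classical.arbitrary ι, fun _ => 1) ?_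
      unfold TF tw
      refine Dvd.dvd.mul_left ?_ _
      have h2 : (1 : ZMod 3).val = 1 := rfl
      simp only [h2, pow_one]
      rw [hj]
      exact Finset.dvd_prod_of_mem _ (Finset.mem_univ j)
  · rintro ⟨h1, h2⟩ x hx
    rcases (cls_tw (D x.1) ls (hD _) (fun j => (h.1 j).1) (fun j => (h.1 j).2.1)
      (fun j => (h.1 j).2.2 _) h.2.1 x.2).2 l hl hx with h3 | ⟨j, h3⟩
    · exact h1 _ h3
    · exact h2 j h3

theorem tw_snoc (m : ℕ) {k : ℕ} (ls : Fin k → ℕ) (l : ℕ) (e : Fin (k + 1) → ZMod 3) :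
    tw m (Fin.snoc (α := fun _ => ℕ) ls l) e =
      tw m ls (fun j => e j.castSucc) * l ^ (e (Fin.last k)).val := by
  unfold tw
  rw [Fin.prod_univ_castSucc, mul_assoc]
  simp only [Fin.snoc_castSucc, Fin.snoc_last]

theorem lv_snoc [Nonempty ι] (hD : ∀ i, Cls (D i)) {k : ℕ} {ls : Fin k → ℕ} (h : Lv D ls) {l : ℕ}
    (hl : l.Prime) : Lv D (Fin.snoc (α := fun _ => ℕ) ls l) ↔ GDI (TF D ls) l := by
  unfold GDI
  rw [adi_iff hD h hl]
  constructor
  · rintro ⟨h1, h2, h3⟩
    have h4 := h1 (Fin.last k)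
    rw [Fin.snoc_last] at h4
    refine ⟨⟨h4.2.1, h4.2.2, fun j hj => ?_⟩, fun x => ⟨?_, ?_⟩⟩
    · have h5 : (Fin.snoc (α := fun _ => ℕ) ls l : Fin (k + 1) → ℕ) (Fin.last k) =
          (Fin.snoc (α := fun _ => ℕ) ls l : Fin (k + 1) → ℕ) j.castSucc := by
        rw [Fin.snoc_last, Fin.snoc_castSucc, hj]
      exact (Fin.castSucc_lt_last j).ne' (h2 h5)
    · have h5 := h3 x.1 (Fin.snoc (α := fun _ => ZMod 3) x.2 1)
      rw [tw_snoc, Fin.snoc_last] at h5
      simp only [Fin.snoc_castSucc] at h5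
      have h2 : (1 : ZMod 3).val = 1 := rfl
      rw [h2, pow_one] at h5
      exact h5
    · have h5 := h3 x.1 (Fin.snoc (α := fun _ => ZMod 3) x.2 2)
      rw [tw_snoc, Fin.snoc_last] at h5
      simp only [Fin.snoc_castSucc] at h5
      have h2 : (2 : ZMod 3).val = 2 := rfl
      rw [h2] at h5
      exact h5
  · rintro ⟨⟨h1, h2, h3⟩, h4⟩
    refine ⟨fun j => ?_, ?_, fun i e => ?_⟩
    · refine Fin.lastCases ?_ (fun j => ?_) j
      · rw [Fin.snoc_last]
        exact ⟨hl, h1, h2⟩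
      · rw [Fin.snoc_castSucc]
        exact h.1 j
    · intro a b
      refine Fin.lastCases ?_ (fun a => ?_) a <;> refine Fin.lastCases ?_ (fun b => ?_) b
      · intro _; rfl
      · rw [Fin.snoc_last, Fin.snoc_castSucc]
        intro h5
        exact absurd h5 (h3 b)
      · rw [Fin.snoc_last, Fin.snoc_castSucc]
        intro h5
        exact absurd h5.symm (h3 a)
      · rw [Fin.snoc_castSucc, Fin.snoc_castSucc]
        intro h5
        rw [h.2.1 h5]
    · rw [tw_snoc]
      have he : e (Fin.last k) = 0 ∨ e (Fin.last k) = 1 ∨ e (Fin.last k) = 2 := by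
        generalize e (Fin.last k) = x
        revert x
        decide
      have h5 := h4 (i, fun j => e j.castSucc)
      unfold TF at h5
      rcases he with h6 | h6 | h6 <;> rw [h6]
      · have : (0 : ZMod 3).val = 0 := rfl
        rw [this, pow_zero, mul_one]
        exact h.2.2 i _
      · have : (1 : ZMod 3).val = 1 := rfl
        rw [this, pow_one]
        exact h5.1
      · have : (2 : ZMod 3).val = 2 := rfl
        rw [this]
        exact h5.2

/-- **The branching law.** -/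
theorem branch [Nonempty ι] (hD : ∀ i, Cls (D i)) {k : ℕ} {ls : Fin k → ℕ} (h : Lv D ls) :
    Tendsto (fun X : ℕ => (CN (NX D ls) X : ℝ) / (CN (fun _ => True) X : ℝ)) atTop
      (𝓝 (1 / 3)) ∧
    Tendsto (fun X : ℕ => (CN (fun l => Lv D (Fin.snoc (α := fun _ => ℕ) ls l)) X : ℝ) /
      (CN (NX D ls) X : ℝ)) atTop (𝓝 (cI (TF D ls))) ∧
    0 < cI (TF D ls) := by
  obtain ⟨g1, g2, g3⟩ := densI (D := TF D ls) (cls_TF hD h) (ns_TF hD h)
  have ha : CN (ADI (TF D ls)) = CN (NX D ls) := by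
    funext X
    unfold CN
    congr 1
    exact Finset.filter_congr fun l _ => and_congr_right fun hl => adi_iff hD h hl.1
  have hg : CN (GDI (TF D ls)) = CN (fun l => Lv D (Fin.snoc (α := fun _ => ℕ) ls l)) := by
    funext X
    unfold CN
    congr 1
    exact Finset.filter_congr fun l _ => and_congr_right fun hl => (lv_snoc hD h hl.1).symm
  rw [ha] at g1 g2
  rw [hg] at g2
  exact ⟨g1, g2, g3⟩

end

end Q155.PC
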