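import Pool.Agent.Q283.MS.Main

/-!
# Pure cubic fields: the two prime twists of a family, with exact density
-/

set_option autoImplicit false
set_option linter.unusedSectionVars false
set_option linter.unusedVariables false

open scoped Classical

namespace Q155.PC

open Filter Topology NumberField WeierstrassCurve
open Pool.Agent.Y703.CT (Cls NoSplit Base WD EQ)
open Q283.TQ
open Q283.MC (Dual exists_dual cube_nine tw Rd RankZero tf Ind ind_of deg_dvd rd_of)
open Q283.MS (Kl sha_all)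
open Pool.Agent.Y333.CX (t_LAM)
open Pool.Agent.Y703.CX (lam)

/-- the dual number -/
noncomputable def du (D : ℕ) : ℕ := (∏ p ∈ D.primeFactors, p) ^ 3 / D

theorem dual_du {D : ℕ} (h : Bs D) : Dual D (du D) := by
  obtain ⟨b, hb⟩ := exists_dual h
  have : du D = b := by
    unfold du
    rw [← hb.2]
    exact Nat.mul_div_cancel_left b (Nat.pos_of_ne_zero hb.1)
  rwa [this]

section
variable {n : ℕ} (D : Fin n → ℕ)

/-- the numbers and their duals -/
noncomputable def fam : Fin (n + n) → ℕ := Fin.append D fun i => du (D i)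

theorem fam_left (i : Fin n) : fam D (Fin.castAdd n i) = D i := Fin.append_left _ _ _

theorem fam_right (i : Fin n) : fam D (Fin.natAdd n i) = du (D i) := Fin.append_right _ _ _

theorem all_fam {P : ℕ → Prop} : (∀ j, P (fam D j)) ↔ ∀ i, P (D i) ∧ P (du (D i)) := by
  constructor
  · intro h i
    refine ⟨?_, ?_⟩
    · have := h (Fin.castAdd n i)
      rwa [fam_left] at this
    · have := h (Fin.natAdd n i)
      rwa [fam_right] at this
  · intro h j
    refine Fin.addCases (fun i => ?_) (fun i => ?_) j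
    · rw [fam_left]
      exact (h i).1
    · rw [fam_right]
      exact (h i).2

variable {D} (hD : ∀ i, Bs (D i))
include hD

theorem bs_fam : ∀ j, Bs (fam D j) :=
  (all_fam D).2 fun i => ⟨hD i, (dual_du (hD i)).bs (hD i)⟩

theorem pf_du (i : Fin n) : (du (D i)).primeFactors = (D i).primeFactors :=
  (dual_du (hD i)).facs (hD i).1.2.2

theorem RR_fam : RR (fam D) = RR D := by
  ext p
  unfold RR
  simp only [Finset.mem_biUnion, Finset.mem_univ, true_and]
  constructor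
  · rintro ⟨j, hj⟩
    revert hj
    refine Fin.addCases (fun i => ?_) (fun i => ?_) j
    · intro hj
      rw [fam_left] at hj
      exact ⟨i, hj⟩
    · intro hj
      rw [fam_right, pf_du hD] at hj
      exact ⟨i, hj⟩
  · rintro ⟨i, hi⟩
    exact ⟨Fin.castAdd n i, by rwa [fam_left]⟩

theorem R1_fam : R1 (fam D) = R1 D := by
  unfold R1
  rw [RR_fam hD]

end

theorem mod3 {a b : ℕ} (h : Dual a b) {p : ℕ} (hp : p ∈ a.primeFactors) :
    (b.factorization p : ZMod 3) = -(a.factorization p : ZMod 3) := by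
  have h1 := h.fac (Nat.prime_of_mem_primeFactors hp)
  rw [if_pos hp] at h1
  rw [eq_neg_iff_add_eq_zero, ← Nat.cast_add, add_comm, h1]
  decide

/-- duality for the system -/
theorem nse_dual {D D' : ℕ} (h : Dual D D') (hB : Bs D) (a b : ℕ → ZMod 3) :
    NSe D' a b ↔ NSe D (fun p => - a p) b := by
  unfold NSe
  rw [h.facs hB.1.2.2]
  refine forall_congr' fun g => ?_
  have h1 : ∀ p ∈ D.primeFactors,
      ∑ r ∈ D.primeFactors, (D'.factorization r : ZMod 3) * lg p r * (g r - g p) =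
        -∑ r ∈ D.primeFactors, (D.factorization r : ZMod 3) * lg p r * (g r - g p) := by
    intro p _
    rw [← Finset.sum_neg_distrib]
    refine Finset.sum_congr rfl fun r hr => ?_
    rw [mod3 h hr]
    ring
  have h2 : ∑ r ∈ D.primeFactors, (D'.factorization r : ZMod 3) * b r * g r =
      -∑ r ∈ D.primeFactors, (D.factorization r : ZMod 3) * b r * g r := by
    rw [← Finset.sum_neg_distrib]
    refine Finset.sum_congr rfl fun r hr => ?_
    rw [mod3 h hr]
    ring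
  rw [h2, neg_eq_zero]
  have h3 : (∀ p ∈ D.primeFactors, p % 3 = 1 →
      ∑ r ∈ D.primeFactors, (D'.factorization r : ZMod 3) * lg p r * (g r - g p) = a p * g p) ↔
      ∀ p ∈ D.primeFactors, p % 3 = 1 →
      ∑ r ∈ D.primeFactors, (D.factorization r : ZMod 3) * lg p r * (g r - g p) =
        - a p * g p := by
    refine forall₃_congr fun p hp _ => ?_
    rw [h1 p hp, neg_eq_iff_eq_neg, neg_mul]
  rw [h3]

/-- the proportion, for given sets -/
noncomputable def cg (S1 S : Finset ℕ) (Φ : (ℕ → ZMod 3) → (ℕ → ZMod 3) → Prop) : ℝ :=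
  (Nat.card {y : (S1 → ZMod 3) × (S → ZMod 3) // Φ (exN S1 y.1) (exN S y.2)} : ℝ) /
    3 ^ (S1.card + S.card)

section
variable {n : ℕ} (D : Fin n → ℕ)

/-- the constant of the family of pairs -/
noncomputable def cD : ℝ :=
  cg (R1 D) (RR D) fun a b => ∀ i, NSe (D i) a b ∧ NSe (D i) (fun p => - a p) b

variable {D} (hD : ∀ i, Bs (D i))
include hD

theorem cD_eq : cQ (fam D) = cD D := by
  rw [← cEl_eq]
  show cg (R1 (fam D)) (RR (fam D)) (fun a b => ∀ i, NSe (fam D i) a b) = _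
  rw [R1_fam hD, RR_fam hD]
  unfold cD
  congr 1
  funext a b
  rw [eq_iff_iff]
  refine (all_fam D (P := fun m => NSe m a b)).trans (forall_congr' fun i => ?_)
  rw [nse_dual (dual_du (hD i)) (hD i)]

end

theorem nine {x y : ℕ} (hx : x < 9) (hy : y < 9) (hxy : (x * y) % 9 = 1 ∨ (x * y) % 9 = 8)
    {r : ℕ} (hr : r = 4 ∨ r = 7) (h1 : x ≠ 1) (h8 : x ≠ 8) :
    ((x * r) % 9 = 1 ∨ (x * r) % 9 = 8) ∨ ((y * r) % 9 = 1 ∨ (y * r) % 9 = 8) := by
  interval_cases x <;> interval_cases y <;> rcases hr with rfl | rfl <;> omega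

theorem du_nine {D : ℕ} (hD : Bs D) : (D * du D) % 9 = 1 ∨ (D * du D) % 9 = 8 := by
  have h := dual_du hD
  have h3 : ¬ 3 ∣ ∏ p ∈ D.primeFactors, p := by
    intro hd
    obtain ⟨p, hp, hpd⟩ := (Nat.prime_three.prime.dvd_finsetProd_iff _).1 hd
    have := (Nat.prime_dvd_prime_iff_eq Nat.prime_three (Nat.prime_of_mem_primeFactors hp)).1 hpd
    exact hD.three p hp this.symm
  have h4 := cube_nine h3
  rwa [← h.2] at h4

theorem nine' {D : ℕ} (hD : Bs D) (h1 : D % 9 ≠ 1) (h8 : D % 9 ≠ 8) {r : ℕ}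
    (hr : r % 9 = 4 ∨ r % 9 = 7) :
    ((D * r) % 9 = 1 ∨ (D * r) % 9 = 8) ∨ ((du D * r) % 9 = 1 ∨ (du D * r) % 9 = 8) := by
  have h := du_nine hD
  rw [Nat.mul_mod] at h
  rw [Nat.mul_mod D r, Nat.mul_mod (du D) r]
  exact nine (Nat.mod_lt _ (by norm_num)) (Nat.mod_lt _ (by norm_num)) h hr h1 h8

section
variable {n : ℕ} {D : Fin n → ℕ} (hn : 0 < n) (hD : ∀ i, Bs (D i)) (h1 : ∀ i, D i % 9 ≠ 1)
  (h8 : ∀ i, D i % 9 ≠ 8)
include hn hD h1 h8

theorem cls_one : clsN (fam D) = 1 := by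
  unfold clsN
  have : (({1, 4, 7} : Finset ℕ).filter fun r => ∀ i, (fam D i * r) % 9 ≠ 1 ∧
      (fam D i * r) % 9 ≠ 8) = {1} := by
    ext r
    rw [Finset.mem_filter, Finset.mem_singleton]
    constructor
    · rintro ⟨hr, h⟩
      have h3 : r = 1 ∨ r = 4 ∨ r = 7 := by simpa using hr
      rcases h3 with h3 | h3
      · exact h3
      · exfalso
        have h4 := (all_fam D (P := fun m => (m * r) % 9 ≠ 1 ∧ (m * r) % 9 ≠ 8)).1 h ⟨0, hn⟩
        have h5 := nine' (hD ⟨0, hn⟩) (h1 _) (h8 _) (r := r) (by omega)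
        omega
    · rintro rfl
      refine ⟨by decide, ?_⟩
      refine (all_fam D (P := fun m => (m * 1) % 9 ≠ 1 ∧ (m * 1) % 9 ≠ 8)).2 fun i => ?_
      rw [mul_one, mul_one]
      exact ⟨⟨h1 i, h8 i⟩, (dual_du (hD i)).mod (hD i) (h1 i) (h8 i)⟩
  rw [this]
  rfl

theorem all_iff {l : ℕ} (hl : l.Prime) (hl1 : l % 3 = 1) :
    AllQ (fam D) l ↔ l % 9 = 1 ∧ ∀ i, ¬ l ∣ D i := by
  unfold AllQ
  rw [all_fam D (P := fun m => ¬ l ∣ m ∧ (m * l) % 9 ≠ 1 ∧ (m * l) % 9 ≠ 8)]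
  constructor
  · intro h
    refine ⟨?_, fun i => (h i).1.1⟩
    by_contra h9
    have h4 := h ⟨0, hn⟩
    have h5 := nine' (hD ⟨0, hn⟩) (h1 _) (h8 _) (r := l) (by omega)
    omega
  · rintro ⟨h9, h⟩ i
    have hm : ∀ m, (m * l) % 9 = m % 9 := by
      intro m
      rw [Nat.mul_mod, h9, mul_one, Nat.mod_mod]
    rw [hm, hm]
    refine ⟨⟨h i, h1 i, h8 i⟩, fun hd => h i ?_, (dual_du (hD i)).mod (hD i) (h1 i) (h8 i)⟩
    have h5 : l ∈ (du (D i)).primeFactors :=
      Nat.mem_primeFactors.2 ⟨hl, hd, (dual_du (hD i)).ne⟩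
    rw [pf_du hD] at h5
    exact Nat.dvd_of_mem_primeFactors h5

end

/-- the facts on the second twist -/
theorem second {D l : ℕ} (hD : Bs D) (h1 : D % 9 ≠ 1) (h8 : D % 9 ≠ 8) (hl : l.Prime)
    (hl9 : l % 9 = 1) (hlD : ¬ l ∣ D) :
    Cls (D * l ^ 2) ∧ (NoSplit (du D * l) ↔ NoSplit (D * l ^ 2)) := by
  have hl1 : l % 3 = 1 := by omega
  have h := dual_du hD
  have hdu : ¬ l ∣ du D := by
    intro hd
    have h5 : l ∈ (du D).primeFactors := Nat.mem_primeFactors.2 ⟨hl, hd, h.ne⟩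
    rw [h.facs hD.1.2.2] at h5
    exact hlD (Nat.dvd_of_mem_primeFactors h5)
  have h2 := (h.symm hD.1.2.2).mul hl.prime.squarefree
    ((Nat.Prime.coprime_iff_not_dvd hl).2 hdu).symm
  have h3 : Bs (du D * l) := bs_mul (h.bs hD) hl hl1 hdu
  refine ⟨(cls_iff (h2.bs h3)).2 ?_, h2.nosplit h3⟩
  have h4 : (D * l ^ 2) % 9 = D % 9 := by
    rw [Nat.mul_mod, Nat.pow_mod, hl9]
    norm_num
  rw [h4]
  exact ⟨h1, h8⟩

theorem first {D l : ℕ} (hD : Bs D) (h1 : D % 9 ≠ 1) (h8 : D % 9 ≠ 8) (hl : l.Prime)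
    (hl9 : l % 9 = 1) (hlD : ¬ l ∣ D) : Cls (D * l) := by
  refine (cls_iff (bs_mul hD hl (by omega) hlD)).2 ?_
  have h4 : (D * l) % 9 = D % 9 := by
    rw [Nat.mul_mod, hl9, mul_one, Nat.mod_mod]
  rw [h4]
  exact ⟨h1, h8⟩

/-- the good primes -/
def GD {n : ℕ} (D : Fin n → ℕ) (l : ℕ) : Prop :=
  (l % 9 = 1 ∧ ∀ i, ¬ l ∣ D i) ∧ ∀ i, Con (D i * l) ∧ Con (D i * l ^ 2)

/-- the allowed primes -/
def AD {n : ℕ} (D : Fin n → ℕ) (l : ℕ) : Prop := l % 9 = 1 ∧ ∀ i, ¬ l ∣ D i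

section
variable {n : ℕ} {D : Fin n → ℕ} (hn : 0 < n) (hD : ∀ i, Bs (D i)) (h1 : ∀ i, D i % 9 ≠ 1)
  (h8 : ∀ i, D i % 9 ≠ 8)
include hn hD h1 h8

theorem good_fam {l : ℕ} (hl : l.Prime) (hl1 : l % 3 = 1) : GoodQ (fam D) l ↔ GD D l := by
  have h2 : GoodQ (fam D) l ↔ AllQ (fam D) l ∧ ∀ j, NoSplit (fam D j * l) := by
    unfold GoodQ AllQ
    rw [← forall_and]
    refine forall_congr' fun j => ?_
    tauto
  rw [h2, all_iff hn hD h1 h8 hl hl1, all_fam D (P := fun m => NoSplit (m * l))]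
  unfold GD
  refine and_congr_right fun h => forall_congr' fun i => ?_
  obtain ⟨h3, h4⟩ := second (hD i) (h1 i) (h8 i) hl h.1 (h.2 i)
  rw [con_iff (first (hD i) (h1 i) (h8 i) hl h.1 (h.2 i)), con_iff h3, h4]

/-- **The densities.** -/
theorem dens :
    Tendsto (fun X : ℕ => (CN (AD D) X : ℝ) / (CN (fun _ => True) X : ℝ)) atTop (𝓝 (1 / 3)) ∧
    Tendsto (fun X : ℕ => (CN (GD D) X : ℝ) / (CN (AD D) X : ℝ)) atTop (𝓝 (cD D)) := by
  obtain ⟨g1, g2, -⟩ := main_Q (fam D) (bs_fam hD)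
  rw [clsN_eq, cls_one hn hD h1 h8] at g1 g2
  have ha : CN (AllQ (fam D)) = CN (AD D) := by
    funext X
    unfold CN
    congr 1
    refine Finset.filter_congr fun l _ => and_congr_right fun hl => ?_
    exact all_iff hn hD h1 h8 hl.1 hl.2
  have hg : CN (GoodQ (fam D)) = CN (GD D) := by
    funext X
    unfold CN
    congr 1
    refine Finset.filter_congr fun l _ => and_congr_right fun hl => ?_
    exact good_fam hn hD h1 h8 hl.1 hl.2
  rw [ha] at g1 g2
  rw [hg, cD_eq hD] at g2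
  exact ⟨by simpa using g1, g2 one_pos⟩

end

/-- the kernel is enough for `a = 0` and `b` supported at `q` -/
theorem nse_zero {D : ℕ} (hB : Bs D) (hS : NoSplit D) {a b : ℕ → ZMod 3}
    (ha : ∀ p ∈ D.primeFactors, p % 3 = 1 → a p = 0)
    (hb1 : ∀ p ∈ D.primeFactors, p % 3 = 1 → b p = 0)
    (hb2 : ∀ p ∈ D.primeFactors, p % 3 = 2 → b p ≠ 0) : NSe D a b := by
  rw [nse_iff]
  have hK := (nosplit_iff t_LAM hB).1 hS
  have hmu := hB.mu_ne
  obtain ⟨⟨h0, -⟩, q, hq, hq2, hqD, hall⟩ := hB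
  have hqm : q ∈ D.primeFactors := Nat.mem_primeFactors.2 ⟨hq, hqD, h0⟩
  intro g h1 h2
  have hc := hK g (fun p hp hp1 => by
    have := h1 p hp hp1
    have h5 : (fun p => sg p * a p) p * g p = 0 := by
      show sg p * a p * g p = 0
      rw [ha p hp hp1, mul_zero, zero_mul]
    rw [h5] at this
    exact this)
  rw [Finset.sum_eq_single q] at h2
  · have hgq : g q = 0 := by
      rcases mul_eq_zero.1 h2 with h3 | h3
      · rcases mul_eq_zero.1 h3 with h4 | h4
        · exact absurd h4 (hmu q hqm)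
        · exact absurd h4 (hb2 q hqm hq2)
      · exact h3
    intro p hp
    rw [hc p hp q hqm, hgq]
  · intro r hr hrq
    rw [hb1 r hr (hall r (Nat.prime_of_mem_primeFactors hr) (Nat.dvd_of_mem_primeFactors hr) hrq),
      mul_zero, zero_mul]
  · intro h
    exact absurd hqm h

theorem exN_zero (S : Finset ℕ) (p : ℕ) : exN S (fun _ => 0) p = 0 := by
  unfold exN
  split_ifs <;> rfl

theorem cD_pos {n : ℕ} {D : Fin n → ℕ} (hD : ∀ i, Bs (D i)) (hS : ∀ i, NoSplit (D i)) :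
    0 < cD D := by
  unfold cD cg
  refine div_pos ?_ (by positivity)
  have hne : Nonempty {y : (R1 D → ZMod 3) × (RR D → ZMod 3) //
      (fun a b => ∀ i, NSe (D i) a b ∧ NSe (D i) (fun p => - a p) b)
        (exN (R1 D) y.1) (exN (RR D) y.2)} := by
    refine ⟨⟨(fun _ => 0, fun r => if (r : ℕ) % 3 = 2 then 1 else 0), fun i => ?_⟩⟩
    have hb1 : ∀ p ∈ (D i).primeFactors, p % 3 = 1 →
        exN (RR D) (fun r : RR D => if (r : ℕ) % 3 = 2 then (1 : ZMod 3) else 0) p = 0 := by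
      intro p hp h1
      unfold exN
      rw [dif_pos (mem_RR D hp)]
      simp [h1]
    have hb2 : ∀ p ∈ (D i).primeFactors, p % 3 = 2 →
        exN (RR D) (fun r : RR D => if (r : ℕ) % 3 = 2 then (1 : ZMod 3) else 0) p ≠ 0 := by
      intro p hp h1
      unfold exN
      rw [dif_pos (mem_RR D hp)]
      simp [h1]
    exact ⟨nse_zero (hD i) (hS i) (fun p _ _ => exN_zero _ _) hb1 hb2,
      nse_zero (hD i) (hS i) (fun p _ _ => by
        show - exN _ (fun _ => 0) p = 0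
        rw [exN_zero, neg_zero]) hb1 hb2⟩
  have := Nat.card_pos (α := {y : (R1 D → ZMod 3) × (RR D → ZMod 3) //
      (fun a b => ∀ i, NSe (D i) a b ∧ NSe (D i) (fun p => - a p) b)
        (exN (R1 D) y.1) (exN (RR D) y.2)})
  exact_mod_cast this

/-- **The fields.** -/
theorem field {D k : ℕ} {ls : Fin k → ℕ} (hD0 : D ≠ 0) (hl : ∀ j, (ls j).Prime)
    (hinj : Function.Injective ls) (hC : ∀ e, Cls (tw D ls e)) (hS : ∀ e, NoSplit (tw D ls e))
    (F : Type) [Field F] [NumberField F] (θ : Fin k → F) (hθ : ∀ j, θ j ^ 3 = (ls j : F))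
    (hgen : IntermediateField.adjoin ℚ ({x : F | x ^ 3 = 1} ∪ Set.range θ) = ⊤) :
    3 ^ k ∣ Module.finrank ℚ F ∧ RankZero D ls F ∧ Kl k D F := by
  have hind : Ind ls := ind_of (fun j => (hl j).one_lt) (fun j => (hl j).prime.squarefree)
    fun i j hij => (Nat.coprime_primes (hl i) (hl j)).2 fun h => hij (hinj h)
  have hd0 : ∀ j, ls j ≠ 0 := fun j => (hl j).ne_zero
  obtain ⟨r, hr⟩ := rd_of hθ hind hgen
  refine ⟨deg_dvd hθ hind, ?_, ?_⟩
  · exact tf hr hD0 hd0 (D := tw D ls) (c := fun _ => 1)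
      (fun e => by rw [one_pow, mul_one]) hC hS
  · intro m x hx
    exact sha_all hθ hgen hD0 hd0 (D := tw D ls) (c := fun _ => 1)
      (fun e => by rw [one_pow, mul_one]) hC hS m x hx

end Q155.PC
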